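import Pool.Agent.Y260.PPC

set_option autoImplicit false

open scoped Manifold ContDiff
open Pool.Agent.Y260.PP

namespace Pool.Agent.Results.MP_7ec995_an.NotEquicontinuous

/-- There is a connected compact Kähler surface `X` such that for every `n ≥ 1` and every
`0 < r < 1` some sequence of holomorphic maps from `ℂ^(n+1)` to `X` is equicontinuous on the
Hartogs figure `H_n^1(r)` but not on the unit polydisc, for every distance on `X` inducing the
topology of `X`. -/
theorem result : ∃ (X : Type) (_ : TopologicalSpace X) (_ : ChartedSpace (Fin 2 → ℂ) X),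
    IsManifold 𝓘(ℂ, Fin 2 → ℂ) ω X ∧ CompactSpace X ∧ T2Space X ∧ ConnectedSpace X ∧
    IsKahler (Fin 2 → ℂ) X ∧ (∃ d : X → X → ℝ, IsDistance X d) ∧
    ∀ n : ℕ, 1 ≤ n → ∀ r : ℝ, 0 < r → r < 1 → ∃ F : ℕ → (Fin (n + 1) → ℂ) → X,
      (∀ k, ContMDiff 𝓘(ℂ, Fin (n + 1) → ℂ) 𝓘(ℂ, Fin 2 → ℂ) ω (F k)) ∧
      ∀ d : X → X → ℝ, IsDistance X d →
        IsEquicontinuousOn d F (hartogsFigure n r) ∧ ¬ IsEquicontinuousOn d F (polydisc n) :=
  main

end Pool.Agent.Results.MP_7ec995_an.NotEquicontinuous
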